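import Pool.Agent.Run7.h699.SPM.Real

/-!
# Strongly proper forcings without atoms destroy winning strategies in the Menger game

The proof follows the starting file `Pool.Agent.V11244.CohCore`, which treats Cohen forcing.
-/

namespace Pool.Agent.Run7.h699.SPM

set_option linter.unusedSectionVars false

open Pool.Agent.Helper669.Forcing
open Pool.Agent.V11244.CohGame
open Set TopologicalSpace

universe u v

theorem polish_can : PolishSpace Can :=
  { (inferInstance : SecondCountableTopology Can), (inferInstance : IsCompletelyMetrizableSpace Can)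
    with }

/-- Names for families of subsets of the Cantor space. -/
abbrev Nm (P : Type u) : Type u := Set Can → Set P

section

variable {P : Type u} [Preorder P]

/-- The named family is a cover by ground model open sets, closed under finite unions. -/
def fLegal (A : Nm P) : Set P :=
  fand (fOpenCover A) (fall fun F : Finset (Set Can) =>
    fimp (fall fun O : Set Can => fall fun _ : O ∈ F => meets (A O)) (meets (A (⋃ O ∈ F, O))))

/-- Legal moves: names that are legal below `q₀` and consist of clopen sets. -/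
def Legal (q₀ : P) (A : Nm P) : Prop :=
  (∀ p ≤ q₀, p ∈ fLegal A) ∧ ∀ O, (A O).Nonempty → IsClopen O

/-- What we need from a strategy. -/
structure Strat (q₀ : P) (S : (n : ℕ) → (Fin (n + 1) → Nm P) → Nm P) : Prop where
  ext : ∀ n (A B : Fin (n + 1) → Nm P), ∀ q ≤ q₀, (∀ i, q ∈ fSame (A i) (B i)) →
    ∃ r ≤ q, r ∈ fSame (S n A) (S n B)
  ans : ∀ n (A : Fin (n + 1) → Nm P), (∀ i, ∀ p ≤ q₀, p ∈ fLegal (A i)) → ∀ q ≤ q₀,
    ∃ r ≤ q, ∃ F : Finset (Set Can),
      (∀ O, ∀ r' ≤ r, r' ∈ meets (S n A O) → O ∈ F ∧ ∃ r'' ≤ r', r'' ∈ meets (A (Fin.last n) O))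
  cov : ∀ A : ℕ → Nm P, (∀ n, ∀ p ≤ q₀, p ∈ fLegal (A n)) → ∀ x, ∀ q ≤ q₀,
    ∃ r ≤ q, ∃ n O, x ∈ O ∧ r ∈ meets (S n (fun i => A i) O)

theorem meets_of_dense {N : Set P} {p : P} (h : ∀ q ≤ p, ∃ r ≤ q, r ∈ meets N) :
    p ∈ meets N := by
  intro q hq
  obtain ⟨r, hr, h1⟩ := h q hq
  obtain ⟨r', hr', s, hs, h2⟩ := h1 r le_rfl
  exact ⟨r', hr'.trans hr, s, hs, h2⟩

/-- Deciding finitely many statements. -/
theorem decide_fin (N : Nm P) (G : Finset (Set Can)) (q : P) :
    ∃ r ≤ q, ∀ O ∈ G, r ∈ meets (N O) ∨ ∀ r' ≤ r, r' ∉ meets (N O) := by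
  classical
  induction G using Finset.induction_on with
  | empty => exact ⟨q, le_rfl, by simp⟩
  | insert O G _ ih =>
    obtain ⟨r, hr, h⟩ := ih
    by_cases h1 : ∃ r' ≤ r, r' ∈ meets (N O)
    · obtain ⟨r', hr', h2⟩ := h1
      refine ⟨r', hr'.trans hr, fun O' hO' => ?_⟩
      rcases Finset.mem_insert.1 hO' with rfl | hO'
      · exact Or.inl h2
      · rcases h O' hO' with h3 | h3
        · exact Or.inl (down_meets _ _ h3 _ hr')
        · exact Or.inr fun r'' hr'' => h3 r'' (hr''.trans hr')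
    · push Not at h1
      refine ⟨r, hr, fun O' hO' => ?_⟩
      rcases Finset.mem_insert.1 hO' with rfl | hO'
      · exact Or.inr h1
      · exact h O' hO'

/-- The answer to the move `U` after the moves in the list `l` (latest first). -/
def ans (S : (n : ℕ) → (Fin (n + 1) → Nm P) → Nm P) (l : List (Nm P)) (U : Nm P) : Nm P :=
  S l.length (fun i => (U :: l)[l.length - i]'(by simp only [List.length_cons]; omega))

/-- `r` decides the answer to be the finite set `G`. -/
def Dec (S : (n : ℕ) → (Fin (n + 1) → Nm P) → Nm P) (l : List (Nm P)) (U : Nm P) (r : P)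
    (G : Finset {W : Set Can // IsClopen W}) : Prop :=
  (∀ O, ∀ r' ≤ r, r' ∈ meets (ans S l U O) → ∃ W ∈ G, W.1 = O) ∧
    ∀ W ∈ G, r ∈ meets (ans S l U W.1)

variable {q₀ : P} {S : (n : ℕ) → (Fin (n + 1) → Nm P) → Nm P}

theorem exists_dec (hS : Strat q₀ S) {l : List (Nm P)} (hl : ∀ A ∈ l, Legal q₀ A) {U : Nm P}
    (hU : Legal q₀ U) {q : P} (hq : q ≤ q₀) :
    ∃ r ≤ q, ∃ G, Dec S l U r G ∧ ∀ W ∈ G, r ∈ meets (U W.1) := by
  classical
  obtain ⟨r, hr, F, h1⟩ := hS.ans l.length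
    (fun i => (U :: l)[l.length - i]'(by simp only [List.length_cons]; omega)) (by
      intro i
      have : (U :: l)[l.length - (i : ℕ)]'(by simp only [List.length_cons]; omega) ∈ U :: l :=
        List.getElem_mem _
      rcases List.mem_cons.1 this with h | h
      · rw [h]
        exact hU.1
      · exact (hl _ h).1) q hq
  have hlast : (U :: l)[l.length - ((Fin.last l.length : Fin (l.length + 1)) : ℕ)]'(by
      simp only [List.length_cons]; omega) = U := by simp
  simp only [hlast] at h1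
  obtain ⟨r2, hr2, h2⟩ := decide_fin (ans S l U) F r
  obtain ⟨r3, hr3, h3⟩ := decide_fin U F r2
  have hcl : ∀ O, ∀ r' ≤ r3, r' ∈ meets (ans S l U O) → IsClopen O := by
    intro O r' hr' h4
    obtain ⟨-, r'', hr'', h5⟩ := h1 O r' (hr'.trans (hr3.trans hr2)) h4
    obtain ⟨-, -, s, hs, -⟩ := h5 r'' le_rfl
    exact hU.2 O ⟨s, hs⟩
  refine ⟨r3, hr3.trans (hr2.trans hr), (F.filter fun O => r3 ∈ meets (ans S l U O)).subtype
    IsClopen, ⟨fun O r' hr' h4 => ?_, fun W hW => ?_⟩, fun W hW => ?_⟩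
  · have h5 := (h1 O r' (hr'.trans (hr3.trans hr2)) h4).1
    refine ⟨⟨O, hcl O r' hr' h4⟩, ?_, rfl⟩
    rw [Finset.mem_subtype, Finset.mem_filter]
    refine ⟨h5, ?_⟩
    rcases h2 O h5 with h6 | h6
    · exact down_meets _ _ h6 _ hr3
    · exact absurd h4 (h6 r' (hr'.trans hr3))
  · rw [Finset.mem_subtype, Finset.mem_filter] at hW
    exact hW.2
  · rw [Finset.mem_subtype, Finset.mem_filter] at hW
    obtain ⟨-, r'', hr'', h5⟩ := h1 W.1 r3 (hr3.trans hr2) hW.2
    rcases h3 W.1 hW.1 with h6 | h6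
    · exact h6
    · exact absurd h5 (h6 r'' hr'')

/-- The points which are always covered. -/
def KK (q₀ : P) (S : (n : ℕ) → (Fin (n + 1) → Nm P) → Nm P) (l : List (Nm P)) (q : P) : Set Can :=
  {x | ∀ U, Legal q₀ U → ∀ q' ≤ q, ∃ r ≤ q', ∃ O, x ∈ O ∧ r ∈ meets (ans S l U O)}

/-- The cover avoiding the image of the new real. -/
def avoid (q₀ : P) (cone : P → Set Can) (φ : Can → Can) : Nm P :=
  fun O => {r | r ≤ q₀ ∧ IsClopen O ∧ Disjoint O (φ '' cone r)}

theorem down_avoid {cone : P → Set Can} (hc : NewReal q₀ cone) (φ : Can → Can) (O : Set Can) :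
    Down (avoid q₀ cone φ O) := fun _ hr _ hq =>
  ⟨hq.trans hr.1, hr.2.1, hr.2.2.mono_right (image_mono (hc.anti _ _ hq))⟩

theorem legal_avoid {cone : P → Set Can} (hc : NewReal q₀ cone) {φ : Can → Can}
    (hφ : Continuous φ) (hi : Function.Injective φ) : Legal q₀ (avoid q₀ cone φ) := by
  have hdown := down_avoid hc φ
  refine ⟨fun p hp => ⟨⟨fun O => mem_fimp.2 fun q _ h => ?_, fun x => mem_fex.2 fun q hq => ?_⟩,
    fun F => mem_fimp.2 fun q hq h => ?_⟩, fun O ⟨r, hr⟩ => hr.2.1⟩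
  · obtain ⟨r, hr, h1⟩ := exists_of_meets (hdown O) h
    exact ⟨r, hr, h1.2.1.isOpen⟩
  · obtain ⟨r, hr, h1⟩ : ∃ r ≤ q, x ∉ φ '' cone r := by
      by_cases hx : ∃ c, φ c = x
      · obtain ⟨c, rfl⟩ := hx
        obtain ⟨r, hr, h1⟩ := hc.avoid q (hq.trans hp) c
        refine ⟨r, hr, ?_⟩
        rintro ⟨c', h2, h3⟩
        exact h1 (hi h3 ▸ h2)
      · exact ⟨q, le_rfl, fun ⟨c, _, h2⟩ => hx ⟨c, h2⟩⟩
    have h2 : IsClosed (φ '' cone r) := ((hc.closed r).isCompact.image hφ).isClosed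
    obtain ⟨O, hO, hxO, h3⟩ := compact_exists_isClopen_in_isOpen h2.isOpen_compl h1
    refine ⟨r, hr, O, mem_fex_of_mem hxO (down_meets _)
      (meets_of_mem ⟨hr.trans (hq.trans hp), hO, ?_⟩)⟩
    exact disjoint_left.2 fun y hy hy' => h3 hy hy'
  · -- finite unions
    have h1 : ∀ G : Finset (Set Can), G ⊆ F → ∃ r ≤ q, ∀ O ∈ G, r ∈ avoid q₀ cone φ O := by
      classical
      intro G
      induction G using Finset.induction_on with
      | empty => exact fun _ => ⟨q, le_rfl, by simp⟩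
      | insert O G _ ih =>
        intro hG
        obtain ⟨r, hr, h2⟩ := ih ((Finset.subset_insert _ _).trans hG)
        obtain ⟨r', hr', h3⟩ := exists_of_meets (hdown O)
          (down_meets _ _ (h O (hG (Finset.mem_insert_self _ _))) _ hr)
        refine ⟨r', hr'.trans hr, fun O' hO' => ?_⟩
        rcases Finset.mem_insert.1 hO' with rfl | hO'
        · exact h3
        · exact hdown _ _ (h2 O' hO') _ hr'
    obtain ⟨r, hr, h2⟩ := h1 F subset_rfl
    refine ⟨r, hr, meets_of_mem ⟨hr.trans (hq.trans hp), ?_, ?_⟩⟩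
    · exact isClopen_biUnion_finset fun O hO => (h2 O hO).2.1
    · rw [disjoint_iUnion₂_left]
      exact fun O hO => (h2 O hO).2.2

/-- The cover by all clopen sets. -/
def allClopen : Nm P := fun O => {_r | IsClopen O}

theorem legal_allClopen : Legal q₀ (allClopen (P := P)) := by
  have hget : ∀ (q : P) O, q ∈ meets (allClopen (P := P) O) → IsClopen O := by
    intro q O h
    obtain ⟨-, -, s, hs, -⟩ := h q le_rfl
    exact hs
  refine ⟨fun p _ => ⟨⟨fun O => mem_fimp.2 fun q _ h => ⟨q, le_rfl, (hget q O h).isOpen⟩,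
    fun x => ?_⟩, fun F => mem_fimp.2 fun q _ h => ⟨q, le_rfl, meets_of_mem ?_⟩⟩,
    fun O ⟨r, hr⟩ => hr⟩
  · refine mem_fex_of_mem univ (down_fex _) (mem_fex_of_mem (mem_univ x) (down_meets _) ?_)
    exact meets_of_mem isClopen_univ
  · exact isClopen_biUnion_finset fun O hO => hget q O (h O hO)

theorem countable_KK (hS : Strat q₀ S) {cone : P → Set Can} (hc : NewReal q₀ cone)
    {l : List (Nm P)} (hl : ∀ A ∈ l, Legal q₀ A) {q : P} (hq : q ≤ q₀) :
    (KK q₀ S l q).Countable := by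
  by_contra hunc
  have hunc' : ¬ (closure (KK q₀ S l q)).Countable := fun h => hunc (h.mono subset_closure)
  have := polish_can
  obtain ⟨φ, hφ1, hφ2, hφ3⟩ := isClosed_closure.exists_nat_bool_injection_of_not_countable hunc'
  have hU : Legal q₀ (avoid q₀ cone φ) := legal_avoid hc hφ2 hφ3
  obtain ⟨r, hr, G, ⟨h1, h2⟩, h3⟩ := exists_dec hS hl hU hq
  have hdown := down_avoid hc φ
  obtain ⟨r1, hr1, h4⟩ : ∃ r1 ≤ r, ∀ W ∈ G, r1 ∈ avoid q₀ cone φ W.1 := by
    classical
    clear h1 h2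
    induction G using Finset.induction_on with
    | empty => exact ⟨r, le_rfl, by simp⟩
    | insert W G _ ih =>
      obtain ⟨r1, hr1, h4⟩ := ih fun W' hW' => h3 W' (Finset.mem_insert_of_mem hW')
      obtain ⟨r2, hr2, h5⟩ := exists_of_meets (hdown W.1)
        (down_meets _ _ (h3 W (Finset.mem_insert_self _ _)) _ hr1)
      refine ⟨r2, hr2.trans hr1, fun W' hW' => ?_⟩
      rcases Finset.mem_insert.1 hW' with rfl | hW'
      · exact h5
      · exact hdown _ _ (h4 W' hW') _ hr2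
  have hKW : closure (KK q₀ S l q) ⊆ ⋃ W ∈ G, W.1 := by
    refine closure_minimal (fun x hx => ?_) (isClosed_biUnion_finset fun W _ => W.2.isClosed)
    obtain ⟨r2, hr2, O, hxO, h5⟩ := hx (avoid q₀ cone φ) hU r1 (hr1.trans hr)
    obtain ⟨W, hW, rfl⟩ := h1 O r2 (hr2.trans hr1) h5
    exact mem_iUnion₂.2 ⟨W, hW, hxO⟩
  obtain ⟨c, hcc⟩ := hc.nonempty r1
  obtain ⟨W, hW, h5⟩ := mem_iUnion₂.1 (hKW (hφ1 (mem_range_self c)))
  exact disjoint_left.1 (h4 W hW).2.2 h5 (mem_image_of_mem φ hcc)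

end

/-! ### The play -/

theorem countable_clopen : Countable {W : Set Can // IsClopen W} := by
  have h1 : Countable (Clopens Can) := (Clopens.countable_iff_secondCountable (X := Can)).2
    inferInstance
  refine Function.Injective.countable (f := fun W => (⟨W.1, W.2⟩ : Clopens Can)) ?_
  intro W W' h
  exact Subtype.ext (congrArg (fun C : Clopens Can => (C : Set Can)) h)

/-- The indices. -/
abbrev Idx (P : Type u) : Type u := P × Finset {W : Set Can // IsClopen W}

section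

variable {P : Type u} [Preorder P]
variable (q₀ : P) (S : (n : ℕ) → (Fin (n + 1) → Nm P) → Nm P)

/-- There are a move and a condition as described by the index. -/
def Sel (l : List (Nm P)) (d : Idx P) : Prop :=
  ∃ U : Nm P, Legal q₀ U ∧ ∃ r ≤ d.1, Dec S l U r d.2

open Classical in
/-- The chosen move. -/
noncomputable def Uo (l : List (Nm P)) (d : Idx P) : Nm P :=
  if h : Sel q₀ S l d then h.choose else allClopen

open Classical in
/-- The chosen condition. -/
noncomputable def ro (l : List (Nm P)) (d : Idx P) : P :=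
  if h : Sel q₀ S l d then h.choose_spec.2.choose else q₀

theorem legal_Uo (l : List (Nm P)) (d : Idx P) : Legal q₀ (Uo q₀ S l d) := by
  unfold Uo
  split_ifs with h
  · exact h.choose_spec.1
  · exact legal_allClopen

theorem ro_spec {l : List (Nm P)} {d : Idx P} (h : Sel q₀ S l d) :
    ro q₀ S l d ≤ d.1 ∧ Dec S l (Uo q₀ S l d) (ro q₀ S l d) d.2 := by
  unfold Uo ro
  rw [dif_pos h, dif_pos h]
  exact h.choose_spec.2.choose_spec

/-- The positions (latest move first). -/
noncomputable def pos : List (Idx P) → List (Nm P)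
  | [] => []
  | d :: m => Uo q₀ S (pos m) d :: pos m

theorem length_pos (m : List (Idx P)) : (pos q₀ S m).length = m.length := by
  induction m with
  | nil => rfl
  | cons d m ih => simp [pos, ih]

theorem legal_pos (m : List (Idx P)) : ∀ A ∈ pos q₀ S m, Legal q₀ A := by
  induction m with
  | nil => intro A hA; simp [pos] at hA
  | cons d m ih =>
    intro A hA
    rcases List.mem_cons.1 hA with rfl | hA
    · exact legal_Uo q₀ S _ d
    · exact ih A hA

variable (N : Set P) (x : Can)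

/-- The index is in the model and gives an answer not containing `x`. -/
def Good (m : List (Idx P)) (d : Idx P) : Prop :=
  d.1 ∈ N ∧ Sel q₀ S (pos q₀ S m) d ∧ ∀ W ∈ d.2, x ∉ W.1

variable (en : Idx P → ℕ)

/-- The conditions forcing that `d` is chosen after `m`. -/
def Ch (m : List (Idx P)) (d : Idx P) : Set P :=
  {r | Good q₀ S N x m d ∧ r ≤ ro q₀ S (pos q₀ S m) d ∧
    ∀ d', en d' < en d → Good q₀ S N x m d' → ∀ r' ≤ r, ¬ r' ≤ ro q₀ S (pos q₀ S m) d'}

/-- The conditions forcing that the list of the chosen indices is `m` (latest first). -/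
def EE : List (Idx P) → Set P
  | [] => univ
  | d :: m => EE m ∩ Ch q₀ S N x en m d

/-- The play. -/
def play (n : ℕ) : Nm P := fun O =>
  {r | ∃ m d, m.length = n ∧ r ∈ EE q₀ S N x en (d :: m) ∧
    r ∈ meets (Uo q₀ S (pos q₀ S m) d O)}

variable {q₀ S N x en}

theorem down_Ch (m : List (Idx P)) (d : Idx P) : Down (Ch q₀ S N x en m d) :=
  fun _ hr _ hq => ⟨hr.1, hq.trans hr.2.1, fun d' h1 h2 r' hr' => hr.2.2 d' h1 h2 r' (hr'.trans hq)⟩

theorem down_EE (m : List (Idx P)) : Down (EE q₀ S N x en m) := by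
  induction m with
  | nil => exact fun _ _ _ _ => trivial
  | cons d m ih => exact fun r hr q hq => ⟨ih r hr.1 q hq, down_Ch m d r hr.2 q hq⟩

theorem mem_of_EE {m : List (Idx P)} {r : P} (h : r ∈ EE q₀ S N x en m) : ∀ d ∈ m, d.1 ∈ N := by
  induction m with
  | nil => intro d hd; simp at hd
  | cons d m ih =>
    intro d' hd'
    rcases List.mem_cons.1 hd' with rfl | hd'
    · exact h.2.1.1
    · exact ih h.1 d' hd'

theorem Ch_unique (hen : InjOn en {d | d.1 ∈ N}) {m : List (Idx P)} {d d' : Idx P} {r : P}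
    (h : r ∈ Ch q₀ S N x en m d) (h' : r ∈ Ch q₀ S N x en m d') : d = d' := by
  rcases lt_trichotomy (en d) (en d') with h1 | h1 | h1
  · exact absurd h.2.1 (h'.2.2 d h1 h.1 r le_rfl)
  · exact hen h.1.1 h'.1.1 h1
  · exact absurd h'.2.1 (h.2.2 d' h1 h'.1 r le_rfl)

theorem EE_unique (hen : InjOn en {d | d.1 ∈ N}) {r : P} : ∀ {m m' : List (Idx P)},
    m.length = m'.length → r ∈ EE q₀ S N x en m → r ∈ EE q₀ S N x en m' → m = m'
  | [], [], _, _, _ => rfl
  | [], _ :: _, h, _, _ => by simp at h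
  | _ :: _, [], h, _, _ => by simp at h
  | d :: m, d' :: m', h, h1, h2 => by
    have h3 : m = m' := EE_unique hen (by simpa using h) h1.1 h2.1
    subst h3
    rw [Ch_unique hen h1.2 h2.2]

/-- What we need from the model `N` and the point `x`; `q₁` is strongly generic. -/
structure Setup (q₀ q₁ : P) (S : (n : ℕ) → (Fin (n + 1) → Nm P) → Nm P) (N : Set P) (x : Can) :
    Prop where
  le : q₁ ≤ q₀
  gen : StronglyGeneric N q₁
  common : ∀ a ∈ N, ∀ t, t ≤ a → t ≤ q₀ → ∃ s ∈ N, s ≤ a ∧ s ≤ q₀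
  ro_mem : ∀ m : List (Idx P), (∀ d ∈ m, d.1 ∈ N) → ∀ d : Idx P, d.1 ∈ N →
    ro q₀ S (pos q₀ S m) d ∈ N
  not_mem : ∀ m : List (Idx P), (∀ d ∈ m, d.1 ∈ N) → ∀ q ∈ N, q ≤ q₀ → x ∉ KK q₀ S (pos q₀ S m) q

variable {q₁ : P}

theorem exists_Ch (hS : Strat q₀ S) (hx : Setup q₀ q₁ S N x)
    {m : List (Idx P)} (hm : ∀ d ∈ m, d.1 ∈ N) {q : P} (hq : q ≤ q₁) :
    ∃ r ≤ q, ∃ d, r ∈ Ch q₀ S N x en m d := by
  classical
  -- a good index with a compatible condition
  have h1 : ∃ d, Good q₀ S N x m d ∧ ∃ r ≤ q, r ≤ ro q₀ S (pos q₀ S m) d := by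
    obtain ⟨r', hr'N, hred⟩ := hx.gen q hq
    obtain ⟨t, ht, htq⟩ := hred r' hr'N le_rfl
    obtain ⟨s, hsN, hsr, hsq⟩ := hx.common r' hr'N t ht (htq.trans (hq.trans hx.le))
    have h2 := hx.not_mem m hm s hsN hsq
    simp only [KK, mem_ofPred_eq, not_forall] at h2
    obtain ⟨U, hU, q', hq', h3⟩ := h2
    push Not at h3
    obtain ⟨r, hr, G, h4, -⟩ := exists_dec hS (legal_pos q₀ S m) hU (hq'.trans hsq)
    have h5 : Sel q₀ S (pos q₀ S m) (s, G) := ⟨U, hU, r, hr.trans hq', h4⟩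
    have h6 := hx.ro_mem m hm (s, G) hsN
    obtain ⟨u, hu, huq⟩ := hred _ h6 ((ro_spec q₀ S h5).1.trans hsr)
    refine ⟨(s, G), ⟨hsN, h5, fun W hW hxW => ?_⟩, u, huq, hu⟩
    exact h3 r hr W.1 hxW (h4.2 W hW)
  have h2 : ∃ k, ∃ d, en d = k ∧ Good q₀ S N x m d ∧ ∃ r ≤ q, r ≤ ro q₀ S (pos q₀ S m) d := by
    obtain ⟨d, h3, h4⟩ := h1
    exact ⟨en d, d, rfl, h3, h4⟩
  obtain ⟨d, h3, h4, r, h5, h6⟩ := Nat.find_spec h2
  refine ⟨r, h5, d, h4, h6, fun d' h7 h8 r' hr' h9 => ?_⟩
  rw [h3] at h7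
  exact Nat.find_min h2 h7 ⟨d', rfl, h8, r', hr'.trans h5, h9⟩

theorem exists_EE (hS : Strat q₀ S) (hx : Setup q₀ q₁ S N x)
    (n : ℕ) {q : P} (hq : q ≤ q₁) : ∃ r ≤ q, ∃ m, m.length = n ∧ r ∈ EE q₀ S N x en m := by
  induction n with
  | zero => exact ⟨q, le_rfl, [], rfl, trivial⟩
  | succ n ih =>
    obtain ⟨r, hr, m, hm, h1⟩ := ih
    obtain ⟨r', hr', d, h2⟩ := exists_Ch (en := en) hS hx (mem_of_EE h1) (hr.trans hq)
    exact ⟨r', hr'.trans hr, d :: m, by simp [hm], down_EE m _ h1 _ hr', h2⟩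

theorem meets_play (hen : InjOn en {d | d.1 ∈ N}) {m : List (Idx P)} {d : Idx P} {r : P}
    (h : r ∈ EE q₀ S N x en (d :: m)) (O : Set Can) :
    r ∈ meets (play q₀ S N x en m.length O) ↔ r ∈ meets (Uo q₀ S (pos q₀ S m) d O) := by
  constructor
  · intro h1
    refine meets_of_dense fun q hq => ?_
    obtain ⟨r', hr', s, ⟨m', d', h2, h3, h4⟩, h5⟩ := h1 q hq
    have h6 : d' :: m' = d :: m := EE_unique hen (by simp [h2]) (down_EE _ _ h3 _ h5)
      (down_EE _ _ h _ (hr'.trans hq))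
    obtain ⟨rfl, rfl⟩ := List.cons.inj h6
    exact ⟨r', hr', down_meets _ _ h4 _ h5⟩
  · intro h1
    exact meets_of_mem ⟨m, d, rfl, h, h1⟩

theorem legal_play (hen : InjOn en {d | d.1 ∈ N}) (hS : Strat q₀ S)
    (hx : Setup q₀ q₁ S N x) (n : ℕ) : ∀ p ≤ q₁, p ∈ fLegal (play q₀ S N x en n) := by
  intro p hp
  -- below `p` the play agrees with a legal move
  have key : ∀ q ≤ p, ∃ r ≤ q, ∃ U : Nm P, Legal q₀ U ∧ ∀ r' ≤ r, ∀ O,
      (r' ∈ meets (play q₀ S N x en n O) ↔ r' ∈ meets (U O)) := by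
    intro q hq
    obtain ⟨r, hr, m, hm, h1⟩ := exists_EE (en := en) hS hx (n + 1) (hq.trans hp)
    cases m with
    | nil => simp at hm
    | cons d m =>
      have hm' : m.length = n := by simpa using hm
      subst hm'
      exact ⟨r, hr, _, legal_Uo q₀ S (pos q₀ S m) d, fun r' hr' O =>
        meets_play hen (down_EE _ _ h1 _ hr') O⟩
  have hp0 := hp.trans hx.le
  refine ⟨⟨fun O => mem_fimp.2 fun q hq h => ?_, fun y => mem_fex.2 fun q hq => ?_⟩,
    fun F => mem_fimp.2 fun q hq h => ?_⟩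
  · obtain ⟨r, hr, U, hU, h1⟩ := key q hq
    have h2 := (h1 r le_rfl O).1 (down_meets _ _ h _ hr)
    obtain ⟨r', hr', h3⟩ := mem_fimp.1 ((hU.1 r (hr.trans (hq.trans hp0))).1.1 O) r le_rfl h2
    exact ⟨r', hr'.trans hr, h3⟩
  · obtain ⟨r, hr, U, hU, h1⟩ := key q hq
    obtain ⟨r', hr', O, h2⟩ := mem_fex.1 ((hU.1 r (hr.trans (hq.trans hp0))).1.2 y) r le_rfl
    obtain ⟨r'', hr'', hyO, h3⟩ := mem_fex.1 h2 r' le_rfl
    exact ⟨r'', hr''.trans (hr'.trans hr), O, mem_fex_of_mem hyO (down_meets _)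
      ((h1 r'' (hr''.trans hr') O).2 h3)⟩
  · obtain ⟨r, hr, U, hU, h1⟩ := key q hq
    obtain ⟨r', hr', h2⟩ := mem_fimp.1 ((hU.1 r (hr.trans (hq.trans hp0))).2 F) r le_rfl
      fun O hO => (h1 r le_rfl O).1 (down_meets _ _ (h O hO) _ hr)
    exact ⟨r', hr'.trans hr, (h1 r' hr' _).2 h2⟩

theorem same_play (hen : InjOn en {d | d.1 ∈ N}) : ∀ (m : List (Idx P)) {r : P},
    r ∈ EE q₀ S N x en m → ∀ (i : ℕ) (h : m.length - 1 - i < (pos q₀ S m).length), i < m.length →
      r ∈ fSame (play q₀ S N x en i) ((pos q₀ S m)[m.length - 1 - i])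
  | [], _, _, i, _, hi => by simp at hi
  | d :: m, r, hr, i, h, hi => by
    rcases Nat.lt_succ_iff_lt_or_eq.1 hi with h1 | h1
    · have h2 := same_play hen m hr.1 i (by rw [length_pos]; omega) h1
      have h3 : (d :: m).length - 1 - i = (m.length - 1 - i) + 1 := by
        simp only [List.length_cons]
        omega
      have h4 : (pos q₀ S (d :: m))[(d :: m).length - 1 - i] =
          (pos q₀ S m)[m.length - 1 - i]'(by rw [length_pos]; omega) := by
        simp only [h3, pos, List.getElem_cons_succ]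
      rw [h4]
      exact h2
    · subst h1
      have h4 : (pos q₀ S (d :: m))[(d :: m).length - 1 - m.length] =
          Uo q₀ S (pos q₀ S m) d := by
        simp [pos]
      rw [h4]
      intro O
      refine ⟨mem_fimp.2 fun q hq h5 => ⟨q, le_rfl, ?_⟩, mem_fimp.2 fun q hq h5 =>
        ⟨q, le_rfl, ?_⟩⟩
      · exact (meets_play hen (down_EE _ _ hr _ hq) O).1 h5
      · exact (meets_play hen (down_EE _ _ hr _ hq) O).2 h5

/-- There is no winning strategy, in the situation of `Setup`. -/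
theorem no_strat_aux (hen : InjOn en {d | d.1 ∈ N}) (hS : Strat q₀ S) (hS1 : Strat q₁ S)
    (hx : Setup q₀ q₁ S N x) : False := by
  obtain ⟨r, hr, n, O, hxO, h2⟩ := hS1.cov (play q₀ S N x en) (legal_play hen hS hx) x q₁ le_rfl
  obtain ⟨r1, hr1, m', hm', h3⟩ := exists_EE (en := en) hS hx (n + 1) hr
  cases m' with
  | nil => simp at hm'
  | cons d m =>
    have hn : m.length = n := by simpa using hm'
    rw [← length_pos q₀ S m] at hn
    subst hn
    obtain ⟨r2, hr2, h4⟩ := hS1.ext (pos q₀ S m).length (fun i => play q₀ S N x en i)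
      (fun i => (Uo q₀ S (pos q₀ S m) d :: pos q₀ S m)[(pos q₀ S m).length - i]'(by
        simp only [List.length_cons]; omega)) r1 (hr1.trans hr) (by
        intro i
        have hL := length_pos q₀ S m
        have hL' := length_pos q₀ S (d :: m)
        have hi : (i : ℕ) < (pos q₀ S m).length + 1 := i.2
        obtain ⟨k, hk⟩ : ∃ k : ℕ, k = (i : ℕ) := ⟨_, rfl⟩
        have h5 := same_play hen (d :: m) h3 k (by
          rw [hL']
          simp only [List.length_cons]
          omega) (by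
          simp only [List.length_cons]
          omega)
        have h6 : (d :: m).length - 1 - k = (pos q₀ S m).length - k := by
          simp only [List.length_cons]
          omega
        simp only [h6] at h5
        subst hk
        exact h5)
    obtain ⟨r3, hr3, h5⟩ := mem_fimp.1 (h4 O).1 r2 le_rfl
      (down_meets _ _ h2 _ (hr2.trans hr1))
    have h6 := h3.2
    obtain ⟨W, hW, h7⟩ := ((ro_spec q₀ S h6.1.2.1).2.1 O r3 ((hr3.trans hr2).trans h6.2.1)) h5
    exact h6.1.2.2 W hW (h7 ▸ hxO)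

/-- There is no winning strategy. -/
theorem no_strat (hP : StronglyProper P) {cone : P → Set Can} (hc : NewReal q₀ cone)
    (hS : ∀ q ≤ q₀, Strat q S) : False := by
  classical
  have hcl := countable_clopen
  obtain ⟨dec, hdec⟩ := exists_surjective_nat (Finset {W : Set Can // IsClopen W})
  obtain ⟨N, hN, hq₀, hH, hG⟩ := exists_model hP q₀ fun j l => match l with
    | [] => q₀
    | a :: l =>
      if j = 0 then ro q₀ S (pos q₀ S (l.map fun b => (b.1, dec b.2))) (a.1, dec a.2)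
      else if h : ∃ s, s ≤ a.1 ∧ s ≤ q₀ then h.choose else a.1
  obtain ⟨q₁, hq₁, hgen⟩ := hG q₀ hq₀
  -- the point
  have hNc : Countable N := hN.to_subtype
  have hNI : Countable {d : Idx P // d.1 ∈ N} := by
    refine Function.Injective.countable (β := N × Finset {W : Set Can // IsClopen W})
      (f := fun d => (⟨d.1.1, d.2⟩, d.1.2)) ?_
    rintro ⟨⟨a, b⟩, h⟩ ⟨⟨a', b'⟩, h'⟩ h1
    simp only [Prod.mk.injEq, Subtype.mk.injEq] at h1
    obtain ⟨rfl, rfl⟩ := h1
    rfl
  have h1 : (⋃ (m : List {d : Idx P // d.1 ∈ N}) (q : {q : N // q.1 ≤ q₀}),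
      KK q₀ S (pos q₀ S (m.map Subtype.val)) q.1.1).Countable := by
    refine countable_iUnion fun m => ?_
    have : Countable {q : N // q.1 ≤ q₀} := inferInstance
    exact countable_iUnion fun q => countable_KK (hS q₀ le_rfl) hc (legal_pos q₀ S _) q.2
  obtain ⟨x, hx⟩ : ∃ x, x ∉ ⋃ (m : List {d : Idx P // d.1 ∈ N}) (q : {q : N // q.1 ≤ q₀}),
      KK q₀ S (pos q₀ S (m.map Subtype.val)) q.1.1 := by
    by_contra hcon
    push Not at hcon
    rw [← eq_univ_iff_forall] at hcon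
    rw [hcon] at h1
    have h2 : Countable Can := countable_univ_iff.1 h1
    obtain ⟨g, hg⟩ := (countable_iff_exists_surjective (α := Can)).1 h2
    obtain ⟨k, hk⟩ := hg fun k => !(g k k)
    have := congrFun hk k
    simp at this
  -- the enumeration
  obtain ⟨en', hen'⟩ := exists_injective_nat {d : Idx P // d.1 ∈ N}
  let en : Idx P → ℕ := fun d => if h : d.1 ∈ N then en' ⟨d, h⟩ else 0
  have hen : InjOn en {d | d.1 ∈ N} := by
    intro d hd d' hd' h
    have h1 : en d = en' ⟨d, hd⟩ := dif_pos hd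
    have h2 : en d' = en' ⟨d', hd'⟩ := dif_pos hd'
    rw [h1, h2] at h
    exact congrArg Subtype.val (hen' h)
  refine no_strat_aux (q₁ := q₁) (N := N) (x := x) hen (hS q₀ le_rfl) (hS q₁ hq₁)
    ⟨hq₁, hgen, fun a ha t ht ht' => ?_, fun m hm d hd => ?_, fun m hm q hqN hq hmem => ?_⟩
  · have h2 := hH 1 (a, 0) [] (by simpa using ha)
    have h3 : ∃ s, s ≤ a ∧ s ≤ q₀ := ⟨t, ht, ht'⟩
    simp only [one_ne_zero, if_false, dif_pos h3] at h2
    exact ⟨_, h2, h3.choose_spec.1, h3.choose_spec.2⟩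
  · -- closed under `ro`
    choose cd hcd using hdec
    have h2 := hH 0 (d.1, cd d.2) (m.map fun b => (b.1, cd b.2)) (by
      intro b hb
      rcases List.mem_cons.1 hb with rfl | hb
      · exact hd
      · obtain ⟨b', hb', rfl⟩ := List.mem_map.1 hb
        exact hm b' hb')
    simp only [if_true, List.map_map] at h2
    have h3 : (m.map ((fun b : P × ℕ => (b.1, dec b.2)) ∘ fun b : Idx P => (b.1, cd b.2))) = m := by
      have : ((fun b : P × ℕ => (b.1, dec b.2)) ∘ fun b : Idx P => (b.1, cd b.2)) = id := by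
        funext b
        simp [hcd]
      rw [this, List.map_id]
    rw [h3, hcd] at h2
    exact h2
  · refine hx (mem_iUnion.2 ⟨m.attachWith (fun d => d.1 ∈ N) hm, mem_iUnion.2
      ⟨⟨⟨q, hqN⟩, hq⟩, ?_⟩⟩)
    rw [List.attachWith_map_subtype_val]
    exact hmem

end

end Pool.Agent.Run7.h699.SPM
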