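import Pool.Agent.V11244.CohGame

/-!
# Strongly proper forcings without atoms add new reals

`StronglyProper` is the definition of the starting file `Pool.Agent.V11244.CohGame`. A new real is
given by the closed sets `cone r` of its possible values below a condition `r`.
-/

namespace Pool.Agent.Run7.h699.SPM

set_option linter.unusedSectionVars false

open Pool.Agent.Helper669.Forcing
open Pool.Agent.V11244.CohGame
open Set

universe u v

/-- The Cantor space. -/
abbrev Can : Type := ℕ → Bool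

section

variable {P : Type u} [Preorder P]

/-- Every condition has two incompatible extensions. -/
def Atomless (P : Type u) [Preorder P] : Prop :=
  ∀ p : P, ∃ q ≤ p, ∃ r ≤ p, ∀ s ≤ q, ¬ s ≤ r

/-- The set `N` of conditions can be chosen closed under countably many functions. -/
theorem exists_model (h : StronglyProper P) (q₀ : P) (H : ℕ → List (P × ℕ) → P) :
    ∃ N : Set P, N.Countable ∧ q₀ ∈ N ∧
      (∀ j a l, (∀ b ∈ a :: l, b.1 ∈ N) → H j (a :: l) ∈ N) ∧
      ∀ p ∈ N, ∃ q ≤ p, StronglyGeneric N q := by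
  let F : List (P × ℕ) → P × ℕ := fun l => match l with
    | [] => (q₀, 0)
    | [a] => (a.1, a.2 + 1)
    | a :: b :: l => (H a.2 (b :: l), 0)
  have he : Function.Injective fun p : P => (p, 0) := fun p p' h => (Prod.ext_iff.1 h).1
  obtain ⟨M, hM, hF, hG⟩ := h (P × ℕ) (fun p => (p, 0)) F he
  have h0 : (q₀, 0) ∈ M := hF [] (by simp)
  have hup : ∀ p, (p, 0) ∈ M → ∀ k, (p, k) ∈ M := by
    intro p hp k
    induction k with
    | zero => exact hp
    | succ k ih => exact hF [(p, k)] (by simpa using ih)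
  refine ⟨{p | (p, 0) ∈ M}, hM.preimage he, h0, fun j a l hl => ?_, hG⟩
  refine hF ((q₀, j) :: a :: l) fun z hz => ?_
  rcases List.mem_cons.1 hz with rfl | hz
  · exact hup q₀ h0 j
  · exact hup z.1 (hl z hz) z.2

/-- The sets `cone r` are the sets of the possible values of a new real. -/
structure NewReal (q₀ : P) (cone : P → Set Can) : Prop where
  anti : ∀ s t, s ≤ t → cone s ⊆ cone t
  closed : ∀ r, IsClosed (cone r)
  nonempty : ∀ r, (cone r).Nonempty
  avoid : ∀ r ≤ q₀, ∀ c, ∃ r' ≤ r, c ∉ cone r'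

/-- The possible values of the characteristic function of the generic filter on the conditions
`ν 0, ν 1, …`, up to `k`. -/
def coneK (ν : ℕ → P) (k : ℕ) (r : P) : Set Can :=
  {c | ∃ r' ≤ r, ∀ i : Fin k, (c i = true → r' ≤ ν i) ∧ (c i = false → ∀ t ≤ r', ¬ t ≤ ν i)}

theorem isClosed_coneK (ν : ℕ → P) (k : ℕ) (r : P) : IsClosed (coneK ν k r) := by
  have h1 : Continuous fun (c : Can) (i : Fin k) => c i :=
    continuous_pi fun i => continuous_apply _
  exact (isClosed_discrete {a : Fin k → Bool | ∃ r' ≤ r, ∀ i : Fin k,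
    (a i = true → r' ≤ ν i) ∧ (a i = false → ∀ t ≤ r', ¬ t ≤ ν i)}).preimage h1

theorem coneK_nonempty (ν : ℕ → P) (k : ℕ) (r : P) : (coneK ν k r).Nonempty := by
  classical
  have h1 : ∃ r' ≤ r, ∀ i < k, r' ≤ ν i ∨ ∀ t ≤ r', ¬ t ≤ ν i := by
    induction k with
    | zero => exact ⟨r, le_rfl, fun i hi => absurd hi (Nat.not_lt_zero i)⟩
    | succ k ih =>
      obtain ⟨r', hr', h⟩ := ih
      by_cases h2 : ∃ t ≤ r', t ≤ ν k
      · obtain ⟨t, ht, h3⟩ := h2
        refine ⟨t, ht.trans hr', fun i hi => ?_⟩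
        rcases Nat.lt_succ_iff_lt_or_eq.1 hi with h4 | rfl
        · rcases h i h4 with h5 | h5
          · exact Or.inl (ht.trans h5)
          · exact Or.inr fun u hu => h5 u (hu.trans ht)
        · exact Or.inl h3
      · push Not at h2
        refine ⟨r', hr', fun i hi => ?_⟩
        rcases Nat.lt_succ_iff_lt_or_eq.1 hi with h4 | rfl
        · exact h i h4
        · exact Or.inr h2
  obtain ⟨r', hr', h2⟩ := h1
  refine ⟨fun i => decide (r' ≤ ν i), r', hr', fun i => ⟨fun h => by simpa using h, fun h => ?_⟩⟩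
  have h3 : ¬ r' ≤ ν i := by simpa using h
  exact (h2 i i.2).resolve_left h3

/-- Strongly proper forcings without atoms add new reals. -/
theorem exists_newReal (h : StronglyProper P) (ha : Atomless P) (p : P) :
    ∃ q₀ ≤ p, ∃ cone : P → Set Can, NewReal q₀ cone := by
  choose s1 h1 s2 h2 h12 using ha
  obtain ⟨N, hN, hp, hH, hG⟩ := exists_model h p fun j l => match l with
    | [] => p
    | a :: _ => if j = 0 then s1 a.1 else s2 a.1
  obtain ⟨q₀, hq₀, hgen⟩ := hG p hp
  obtain ⟨ν, hν⟩ := hN.exists_eq_range ⟨p, hp⟩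
  have hmono : ∀ k r, coneK ν (k + 1) r ⊆ coneK ν k r := by
    rintro k r c ⟨r', hr', h3⟩
    exact ⟨r', hr', fun i => h3 ⟨i, by have := i.2; omega⟩⟩
  refine ⟨q₀, hq₀, fun r => ⋂ k, coneK ν k r, ⟨fun s t hst => ?_, fun r => ?_, fun r => ?_,
    fun r hr c => ?_⟩⟩
  · refine iInter_mono fun k => ?_
    rintro c ⟨r', hr', h3⟩
    exact ⟨r', hr'.trans hst, h3⟩
  · exact isClosed_iInter fun k => isClosed_coneK ν k r
  · exact IsCompact.nonempty_iInter_of_sequence_nonempty_isCompact_isClosed _
      (fun k => hmono k r) (fun k => coneK_nonempty ν k r) (isClosed_coneK ν 0 r).isCompact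
      (fun k => isClosed_coneK ν k r)
  · obtain ⟨r', hr'N, h3⟩ := hgen r hr
    have h4 : s1 r' ∈ N := by
      have := hH 0 (r', 0) [] (by simpa using hr'N)
      simpa using this
    have h5 : s2 r' ∈ N := by
      have := hH 1 (r', 0) [] (by simpa using hr'N)
      simpa using this
    have key : ∀ s ∈ N, s ≤ r' → ∀ i, ν i = s → c i = false → ∃ t ≤ r, c ∉ ⋂ k, coneK ν k t := by
      intro s hs hsr i hi hc
      obtain ⟨t, ht, ht'⟩ := h3 s hs hsr
      refine ⟨t, ht', fun hcon => ?_⟩
      obtain ⟨t', ht'', h6⟩ := mem_iInter.1 hcon (i + 1)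
      exact (h6 ⟨i, Nat.lt_succ_self i⟩).2 hc t' le_rfl (hi ▸ ht''.trans ht)
    obtain ⟨i, hi⟩ : ∃ i, ν i = s1 r' := by rw [hν] at h4; exact h4
    obtain ⟨j, hj⟩ : ∃ j, ν j = s2 r' := by rw [hν] at h5; exact h5
    cases hci : c i with
    | false => exact key _ h4 (h1 r') i hi hci
    | true =>
      cases hcj : c j with
      | false => exact key _ h5 (h2 r') j hj hcj
      | true =>
        refine ⟨r, le_rfl, fun hcon => ?_⟩
        obtain ⟨t', ht', h6⟩ := mem_iInter.1 hcon (i + j + 1)
        have h7 := (h6 ⟨i, by omega⟩).1 hci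
        have h8 := (h6 ⟨j, by omega⟩).1 hcj
        simp only at h7 h8
        rw [hi] at h7
        rw [hj] at h8
        exact h12 r' t' h7 h8

end

end Pool.Agent.Run7.h699.SPM
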