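import Pool.Agent.Run7.h699.SPM.Core

/-!
# Spaces with a closed subspace that maps onto the Cantor space
-/

namespace Pool.Agent.Run7.h699.SPM

set_option linter.unusedSectionVars false

open Pool.Agent.Helper669.Forcing
open Pool.Agent.V11244.CohGame
open Set

universe u v

section

variable {P : Type u} [Preorder P] {X : Type v} {K : Set X}

/-- The points of `X` that are outside `K` or mapped into `O`. -/
def pull (f : K → Can) (O : Set Can) : Set X := {x | ∀ h : x ∈ K, f ⟨x, h⟩ ∈ O}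

/-- The image of a named family under `pull`. -/
def lift (f : K → Can) (A : Nm P) : Set X → Set P := fun U => {r | ∃ O, U = pull f O ∧ r ∈ A O}

theorem pull_inj {f : K → Can} (hs : Function.Surjective f) : Function.Injective (pull f) := by
  intro O O' h
  ext c
  obtain ⟨⟨x, hx⟩, rfl⟩ := hs c
  have h1 : x ∈ pull f O ↔ x ∈ pull f O' := by rw [h]
  exact ⟨fun h2 => h1.1 (fun _ => h2) hx, fun h2 => h1.2 (fun _ => h2) hx⟩

theorem lift_pull {f : K → Can} (hs : Function.Surjective f) (A : Nm P) (O : Set Can) :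
    lift f A (pull f O) = A O := by
  ext r
  constructor
  · rintro ⟨O', h, hr⟩
    rwa [pull_inj hs h]
  · exact fun hr => ⟨O, rfl, hr⟩

theorem exists_pull {f : K → Can} {A : Nm P} {U : Set X} {r : P} (h : r ∈ meets (lift f A U)) :
    ∃ O, U = pull f O := by
  obtain ⟨-, -, s, ⟨O, hO, -⟩, -⟩ := h r le_rfl
  exact ⟨O, hO⟩

theorem fSame_lift {f : K → Can} (hs : Function.Surjective f) {A B : Nm P} {r : P}
    (h : r ∈ fSame A B) : r ∈ fSame (lift f A) (lift f B) := by
  intro U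
  refine ⟨mem_fimp.2 fun q hq h1 => ?_, mem_fimp.2 fun q hq h1 => ?_⟩
  · obtain ⟨O, rfl⟩ := exists_pull h1
    rw [lift_pull hs] at h1 ⊢
    exact mem_fimp.1 (h O).1 q hq h1
  · obtain ⟨O, rfl⟩ := exists_pull h1
    rw [lift_pull hs] at h1 ⊢
    exact mem_fimp.1 (h O).2 q hq h1

variable [TopologicalSpace X]

theorem isOpen_pull (hK : IsClosed K) {f : K → Can} (hf : Continuous f) {O : Set Can}
    (hO : IsOpen O) : IsOpen (pull f O) := by
  have h1 : pull f O = ((Subtype.val : K → X) '' (f ⁻¹' O)ᶜ)ᶜ := by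
    ext x
    simp only [pull, mem_ofPred_eq, mem_compl_iff, mem_image, mem_preimage, not_exists, not_and]
    constructor
    · rintro h ⟨y, hy⟩ h2 rfl
      exact h2 (h hy)
    · intro h hx
      by_contra h2
      exact h ⟨x, hx⟩ h2 rfl
  rw [h1]
  exact (hK.isClosedEmbedding_subtypeVal.isClosedMap _ (hO.preimage hf).isClosed_compl).isOpen_compl

theorem openCover_lift (hK : IsClosed K) {f : K → Can} (hf : Continuous f)
    (hs : Function.Surjective f) {A : Nm P} {p : P} (h : p ∈ fLegal A) :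
    p ∈ fOpenCover (lift f A) := by
  refine ⟨fun U => mem_fimp.2 fun q hq h1 => ?_, fun x => mem_fex.2 fun q hq => ?_⟩
  · obtain ⟨O, rfl⟩ := exists_pull h1
    rw [lift_pull hs] at h1
    obtain ⟨r, hr, h2⟩ := mem_fimp.1 (h.1.1 O) q hq h1
    exact ⟨r, hr, isOpen_pull hK hf h2⟩
  · have h1 : ∃ c : Can, ∀ O, c ∈ O → x ∈ pull f O := by
      by_cases hx : x ∈ K
      · exact ⟨f ⟨x, hx⟩, fun O hO _ => hO⟩
      · exact ⟨fun _ => false, fun O _ h => absurd h hx⟩
    obtain ⟨c, hc⟩ := h1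
    obtain ⟨r, hr, O, h2⟩ := mem_fex.1 (h.1.2 c) q hq
    obtain ⟨r', hr', hcO, h3⟩ := mem_fex.1 h2 r le_rfl
    refine ⟨r', hr'.trans hr, pull f O, mem_fex_of_mem (hc O hcO) (down_meets _) ?_⟩
    rw [lift_pull hs]
    exact h3

theorem down_fWinning (𝒜 𝒞 ℬ : (Set X → Set P) → Set P)
    (S : (n : ℕ) → (Fin (n + 1) → Set X → Set P) → Set X → Set P) : Down (fWinning 𝒜 𝒞 ℬ S) :=
  down_fand (down_fall fun _ => down_fall fun _ => down_fall fun _ => down_fimp _ _)
    (down_fand (down_fall fun _ => down_fall fun _ => down_fimp _ _)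
      (down_fall fun _ => down_fimp _ _))

theorem strat_of_winning (hK : IsClosed K) {f : K → Can} (hf : Continuous f)
    (hs : Function.Surjective f) {q₀ : P}
    {S : (n : ℕ) → (Fin (n + 1) → Set X → Set P) → Set X → Set P}
    (h : q₀ ∈ fWinning fOpenCover fFinite fOpenCover S) :
    Strat q₀ (fun n (A : Fin (n + 1) → Nm P) O => S n (fun i => lift f (A i)) (pull f O)) where
  ext := by
    intro n A B q hq hAB
    obtain ⟨r, hr, h1⟩ := mem_fimp.1 (h.1 n (fun i => lift f (A i)) (fun i => lift f (B i))) q hq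
      fun i => fSame_lift hs (hAB i)
    exact ⟨r, hr, fun O => h1 (pull f O)⟩
  ans := by
    classical
    intro n A hA q hq
    obtain ⟨r, hr, h1, h2⟩ := mem_fimp.1 (h.2.1 n (fun i => lift f (A i))) q hq
      fun i => openCover_lift hK hf hs (hA i q hq)
    obtain ⟨r1, hr1, F, h3⟩ := mem_fex.1 h1 r le_rfl
    refine ⟨r1, hr1.trans hr, F.preimage (pull f) (pull_inj hs).injOn, fun O r' hr' h4 => ⟨?_, ?_⟩⟩
    · obtain ⟨_, _, h5⟩ := mem_fimp.1 (h3 (pull f O)) r' hr' h4
      exact Finset.mem_preimage.2 h5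
    · obtain ⟨r'', hr'', h5⟩ := mem_fimp.1 (h2 (pull f O)) r' (hr'.trans hr1) h4
      simp only [lift_pull hs] at h5
      exact ⟨r'', hr'', h5⟩
  cov := by
    intro A hA x q hq
    obtain ⟨y, rfl⟩ := hs x
    obtain ⟨r, hr, h1⟩ := mem_fimp.1 (h.2.2 (fun n => lift f (A n))) q hq
      fun n => openCover_lift hK hf hs (hA n q hq)
    obtain ⟨r1, hr1, U, h2⟩ := mem_fex.1 (h1.2 y) r le_rfl
    obtain ⟨r2, hr2, hyU, h3⟩ := mem_fex.1 h2 r1 le_rfl
    obtain ⟨r3, hr3, s, hs', h4⟩ := h3 r2 le_rfl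
    obtain ⟨n, hn⟩ := mem_iUnion.1 hs'
    have h5 : r3 ∈ meets (S n (fun i : Fin (n + 1) => lift f (A i)) U) := meets_of_le hn h4
    have hle : r3 ≤ q := hr3.trans (hr2.trans (hr1.trans hr))
    obtain ⟨r4, hr4, -, h6⟩ := mem_fimp.1 (h.2.1 n (fun i : Fin (n + 1) => lift f (A i))) r3
      (hle.trans hq) fun i => openCover_lift hK hf hs (hA i r3 (hle.trans hq))
    obtain ⟨r5, hr5, h7⟩ := mem_fimp.1 (h6 U) r4 le_rfl (down_meets _ _ h5 _ hr4)
    obtain ⟨O, rfl⟩ := exists_pull h7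
    exact ⟨r4, hr4.trans hle, n, O, hyU y.2, down_meets _ _ h5 _ hr4⟩

/-- Strongly proper forcings without atoms destroy the winning strategies of II in the Menger game
on spaces with a closed subspace that maps onto the Cantor space. -/
theorem no_menger (hP : StronglyProper P) (ha : Atomless P) (hK : IsClosed K) {f : K → Can}
    (hf : Continuous f) (hs : Function.Surjective f) (p : P) :
    p ∈ fnot (fIIWinsFin (P := P) (X := X) fOpenCover fOpenCover) := by
  intro q _ hq
  obtain ⟨r, _, S, hS⟩ := mem_fex.1 hq q le_rfl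
  obtain ⟨q₀, hq₀, cone, hc⟩ := exists_newReal hP ha r
  exact no_strat hP hc fun q hq =>
    strat_of_winning hK hf hs (down_fWinning _ _ _ _ _ hS _ (hq.trans hq₀))

end

/-! ### Uncountable sigma-compact metrizable spaces -/

section

open TopologicalSpace

theorem exists_cantor {X : Type v} [TopologicalSpace X] [MetrizableSpace X] [SigmaCompactSpace X]
    (h : ¬ Countable X) :
    ∃ (K : Set X) (f : K → Can), IsClosed K ∧ Continuous f ∧ Function.Surjective f := by
  obtain ⟨n, hn⟩ : ∃ n, ¬ (compactCovering X n).Countable := by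
    by_contra hcon
    push Not at hcon
    have h1 : (⋃ n, compactCovering X n).Countable := countable_iUnion hcon
    rw [iUnion_compactCovering] at h1
    exact h (countable_univ_iff.1 h1)
  let C : Set X := compactCovering X n
  have hC : IsCompact C := isCompact_compactCovering X n
  have hCc : CompactSpace C := isCompact_iff_compactSpace.1 hC
  let _ : MetricSpace C := metrizableSpaceMetric C
  have hpol : PolishSpace C := inferInstance
  have hunc : ¬ (univ : Set C).Countable := by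
    rw [countable_univ_iff]
    exact fun h1 => hn (h1.to_set)
  obtain ⟨φ, -, hφ2, hφ3⟩ :=
    (isClosed_univ (X := C)).exists_nat_bool_injection_of_not_countable hunc
  let g : Can → X := fun c => (φ c : X)
  have hg : Topology.IsClosedEmbedding g :=
    (continuous_subtype_val.comp hφ2).isClosedEmbedding (Subtype.val_injective.comp hφ3)
  refine ⟨range g, hg.isEmbedding.toHomeomorph.symm, hg.isClosed_range,
    hg.isEmbedding.toHomeomorph.symm.continuous, hg.isEmbedding.toHomeomorph.symm.surjective⟩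

theorem wins_of_sigmaCompact {X : Type v} [TopologicalSpace X] [SigmaCompactSpace X] :
    IIWinsFin (OpenCovers X) (OpenCovers X) := by
  classical
  have h1 : ∀ (n : ℕ) (𝒰 : Set (Set X)), 𝒰 ∈ OpenCovers X →
      ∃ F ⊆ 𝒰, F.Finite ∧ ∀ x ∈ compactCovering X n, ∃ O ∈ F, x ∈ O := by
    rintro n 𝒰 ⟨h1, h2⟩
    obtain ⟨F, hF, hF', h3⟩ := (isCompact_compactCovering X n).elim_finite_subcover_image
      (b := 𝒰) (c := id) h1 (fun x _ => by
        obtain ⟨O, hO, hx⟩ := h2 x
        exact mem_iUnion₂.2 ⟨O, hO, hx⟩)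
    refine ⟨F, hF, hF', fun x hx => ?_⟩
    obtain ⟨O, hO, hx⟩ := mem_iUnion₂.1 (h3 hx)
    exact ⟨O, hO, hx⟩
  refine ⟨fun n A => if h : A (Fin.last n) ∈ OpenCovers X then (h1 n _ h).choose else ∅,
    fun n A hA => ?_, fun A hA => ?_⟩
  · dsimp only
    rw [dif_pos (hA _)]
    exact ⟨(h1 n _ (hA _)).choose_spec.2.1, (h1 n _ (hA _)).choose_spec.1⟩
  · have h2 : ∀ n : ℕ, A ((Fin.last n : Fin (n + 1)) : ℕ) ∈ OpenCovers X := fun n => hA _
    refine ⟨fun O hO => ?_, fun x => ?_⟩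
    · obtain ⟨n, hn⟩ := mem_iUnion.1 hO
      dsimp only at hn
      rw [dif_pos (h2 n)] at hn
      exact (h2 n).1 O ((h1 n _ (h2 n)).choose_spec.1 hn)
    · obtain ⟨n, hn⟩ := exists_mem_compactCovering x
      obtain ⟨O, hO, hx⟩ := (h1 n _ (h2 n)).choose_spec.2.2 x hn
      refine ⟨O, mem_iUnion.2 ⟨n, ?_⟩, hx⟩
      dsimp only
      rw [dif_pos (h2 n)]
      exact hO

end

/-! ### Countable spaces -/

section

variable {P : Type u} [Preorder P] {X : Type v}

/-- The name for the one-element family whose element is the least member of `A` that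
contains `x`. -/
def LL (x : X) (A : Set X → Set P) (U : Set X) : Set P :=
  {r | x ∈ U ∧ r ∈ meets (A U) ∧
    ∀ U', WellOrderingRel U' U → x ∈ U' → ∀ r' ≤ r, r' ∉ meets (A U')}

variable {x : X} {A B : Set X → Set P} {U U' : Set X} {r p : P}

theorem down_LL : Down (LL x A U) := fun _ hr _ hq =>
  ⟨hr.1, down_meets _ _ hr.2.1 _ hq, fun U' h1 h2 r' hr' => hr.2.2 U' h1 h2 r' (hr'.trans hq)⟩

theorem LL_unique (h : r ∈ LL x A U) (h' : r ∈ LL x A U') : U = U' := by
  rcases trichotomous_of (WellOrderingRel (α := Set X)) U U' with h1 | h1 | h1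
  · exact absurd h.2.1 (h'.2.2 U h1 h.1 r le_rfl)
  · exact h1
  · exact absurd h'.2.1 (h.2.2 U' h1 h'.1 r le_rfl)

theorem exists_LL (h : p ∈ fCovers A) (x : X) {q : P} (hq : q ≤ p) :
    ∃ r ≤ q, ∃ U, r ∈ LL x A U := by
  let Z : Set (Set X) := {U | x ∈ U ∧ ∃ r ≤ q, r ∈ meets (A U)}
  have hZ : Z.Nonempty := by
    obtain ⟨r, hr, U, h1⟩ := mem_fex.1 (h x) q hq
    obtain ⟨r', hr', hxU, h2⟩ := mem_fex.1 h1 r le_rfl
    exact ⟨U, hxU, r', hr'.trans hr, h2⟩
  obtain ⟨U, ⟨hxU, r, hr, h1⟩, hmin⟩ :=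
    (WellOrderingRel.isWellOrder (α := Set X)).wf.has_min Z hZ
  exact ⟨r, hr, U, hxU, h1, fun U' h2 hx r' hr' h3 => hmin U' ⟨hx, r', hr'.trans hr, h3⟩ h2⟩

theorem fSame_LL (h : r ∈ fSame A B) : r ∈ fSame (LL x A) (LL x B) := by
  have hd : ∀ C D : Set X → Set P, Down (fSame C D) := fun C D =>
    down_fall fun y => down_fand (down_fimp _ _) (down_fimp _ _)
  have key : ∀ C D : Set X → Set P, ∀ q ≤ r, r ∈ fSame C D → ∀ U, q ∈ LL x C U → q ∈ LL x D U := by
    intro C D q hq h U h1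
    refine ⟨h1.1, meets_of_dense fun q' hq' => mem_fimp.1 (h U).1 q' (hq'.trans hq)
      (down_meets _ _ h1.2.1 _ hq'), fun U' h2 h3 r' hr' h4 => ?_⟩
    obtain ⟨r'', hr'', h5⟩ := mem_fimp.1 (h U').2 r' (hr'.trans hq) h4
    exact h1.2.2 U' h2 h3 r'' (hr''.trans hr') h5
  have h' : r ∈ fSame B A := fun U => ⟨(h U).2, (h U).1⟩
  have key2 : ∀ C D : Set X → Set P, r ∈ fSame C D → ∀ U, ∀ q ≤ r, q ∈ meets (LL x C U) →
      q ∈ meets (LL x D U) := by
    intro C D h U q hq h1
    refine meets_of_dense fun q' hq' => ?_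
    obtain ⟨r', hr', h2⟩ := exists_of_meets down_LL (down_meets _ _ h1 _ hq')
    exact ⟨r', hr', meets_of_mem (key C D r' (hr'.trans (hq'.trans hq)) h U h2)⟩
  intro U
  exact ⟨mem_fimp.2 fun q hq h1 => ⟨q, le_rfl, key2 A B h U q hq h1⟩,
    mem_fimp.2 fun q hq h1 => ⟨q, le_rfl, key2 B A h' U q hq h1⟩⟩

variable [TopologicalSpace X]

/-- On a countable space II always wins. -/
theorem wins_countable [Countable X] (p : P) :
    p ∈ fIIWinsFin (P := P) (X := X) fOpenCover fOpenCover := by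
  classical
  rcases isEmpty_or_nonempty X with hX | hX
  · have hno : ∀ (q : P), q ∉ meets (∅ : Set P) := by
      intro q h
      obtain ⟨-, -, s, hs, -⟩ := h q le_rfl
      exact hs
    refine mem_fex.2 fun q _ => ⟨q, le_rfl, fun _ _ _ => ∅, ?_, ?_, ?_⟩
    · intro n A B
      exact mem_fimp.2 fun r _ _ => ⟨r, le_rfl, fun O => ⟨mem_fimp.2 fun q _ h => absurd h (hno q),
        mem_fimp.2 fun q _ h => absurd h (hno q)⟩⟩
    · intro n A
      exact mem_fimp.2 fun r _ _ => ⟨r, le_rfl, mem_fex.2 fun q _ => ⟨q, le_rfl, ∅,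
        fun O => mem_fimp.2 fun q _ h => absurd h (hno q)⟩,
        fun O => mem_fimp.2 fun q _ h => absurd h (hno q)⟩
    · intro A
      refine mem_fimp.2 fun r _ _ => ⟨r, le_rfl, fun O => mem_fimp.2 fun q _ h => ?_,
        fun x => (hX.false x).elim⟩
      simp only [iUnion_empty] at h
      exact absurd h (hno q)
  · obtain ⟨ν, hν⟩ := exists_surjective_nat X
    refine mem_fex.2 fun q _ => ⟨q, le_rfl, fun n A => LL (ν n) (A (Fin.last n)), ?_, ?_, ?_⟩
    · intro n A B
      exact mem_fimp.2 fun r _ h => ⟨r, le_rfl, fSame_LL (h (Fin.last n))⟩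
    · intro n A
      refine mem_fimp.2 fun r _ h => ⟨r, le_rfl, mem_fex.2 fun q hq => ?_, fun U =>
        mem_fimp.2 fun q _ h1 => ?_⟩
      · obtain ⟨r', hr', U, h1⟩ := exists_LL (h (Fin.last n)).2 (ν n) hq
        refine ⟨r', hr', {U}, fun O => mem_fimp.2 fun q' hq' h2 => ?_⟩
        obtain ⟨r'', hr'', h3⟩ := exists_of_meets down_LL h2
        have h4 : O = U := LL_unique h3 (down_LL _ h1 _ (hr''.trans hq'))
        exact ⟨r'', hr'', by rw [mem_fground, Finset.mem_singleton]; exact h4⟩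
      · obtain ⟨r', hr', h2⟩ := exists_of_meets down_LL h1
        exact ⟨r', hr', h2.2.1⟩
    · intro A
      refine mem_fimp.2 fun r _ h => ⟨r, le_rfl, fun U => mem_fimp.2 fun q hq h1 => ?_, fun x =>
        mem_fex.2 fun q hq => ?_⟩
      · obtain ⟨r', hr', s, hs, h2⟩ := h1 q le_rfl
        obtain ⟨n, hn⟩ := mem_iUnion.1 hs
        have h3 : r' ∈ meets (A n U) := down_meets _ _ hn.2.1 _ h2
        obtain ⟨r'', hr'', h4⟩ := mem_fimp.1 ((h n).1 U) r' (hr'.trans hq) h3
        exact ⟨r'', hr''.trans hr', h4⟩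
      · obtain ⟨n, rfl⟩ := hν x
        obtain ⟨r', hr', U, h1⟩ := exists_LL (h n).2 (ν n) hq
        refine ⟨r', hr', U, mem_fex_of_mem h1.1 (down_meets _) (meets_of_mem ?_)⟩
        exact mem_iUnion.2 ⟨n, h1⟩

end

end Pool.Agent.Run7.h699.SPM
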